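import Pool.Agent.helper13.RF.Spec2

/-!
# Row rf:CHR (MP_16912e_nt, project RF): the characters of a finite commutative group with a given kernel of index 5
-/

set_option autoImplicit false

open NumberField IsDedekindDomain
open scoped nonZeroDivisors

namespace Pool.Agent.RF

theorem CHR : CHR_stmt := by
  classical
  intro D _ _ H hH
  have hQ : Finite (D ⧸ H) := Quotient.finite _
  have hcard : Nat.card (D ⧸ H) = 5 := hH
  obtain ⟨e⟩ := CommGroup.monoidHom_mulEquiv_of_hasEnoughRootsOfUnity (D ⧸ H) ℂ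
  have hF : Finite ((D ⧸ H) →* ℂˣ) := Finite.of_equiv _ e.symm.toEquiv
  have : Fintype ((D ⧸ H) →* ℂˣ) := Fintype.ofFinite _
  have hc : Fintype.card ((D ⧸ H) →* ℂˣ) = 5 := by
    rw [← Nat.card_eq_fintype_card, Nat.card_congr e.toEquiv, hcard]
  have hinj : Function.Injective fun φ : (D ⧸ H) →* ℂˣ => φ.comp (QuotientGroup.mk' H) := by
    intro φ φ' h
    ext q
    exact congrArg Units.val (DFunLike.congr_fun h q)
  refine ⟨Finset.univ.image fun φ : (D ⧸ H) →* ℂˣ => φ.comp (QuotientGroup.mk' H), ?_, ?_, fun d => ?_⟩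
  · rw [Finset.card_image_of_injective _ hinj, Finset.card_univ, hc]
  · rw [Finset.mem_image]
    exact ⟨1, Finset.mem_univ _, by ext; rfl⟩
  · have hs : ∑ ψ ∈ Finset.univ.image (fun φ : (D ⧸ H) →* ℂˣ => φ.comp (QuotientGroup.mk' H)), ((ψ d : ℂˣ) : ℂ) =
        ∑ φ : (D ⧸ H) →* ℂˣ, ((φ (QuotientGroup.mk' H d) : ℂˣ) : ℂ) := by
      rw [Finset.sum_image fun φ _ φ' _ h => hinj h]
      rfl
    rw [hs]
    constructor
    · intro hd
      have h1 : QuotientGroup.mk' H d = 1 := (QuotientGroup.eq_one_iff d).2 hd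
      rw [h1]
      simp only [map_one, Units.val_one, Finset.sum_const, Finset.card_univ, hc]
      norm_num
    · intro hd
      have h1 : QuotientGroup.mk' H d ≠ 1 := fun h => hd ((QuotientGroup.eq_one_iff d).1 h)
      obtain ⟨φ₀, hφ₀⟩ := CommGroup.exists_apply_ne_one_of_hasEnoughRootsOfUnity (D ⧸ H) ℂ h1
      have h2 : ((φ₀ (QuotientGroup.mk' H d) : ℂˣ) : ℂ) * ∑ φ : (D ⧸ H) →* ℂˣ, ((φ (QuotientGroup.mk' H d) : ℂˣ) : ℂ) =
          ∑ φ : (D ⧸ H) →* ℂˣ, ((φ (QuotientGroup.mk' H d) : ℂˣ) : ℂ) := by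
        rw [Finset.mul_sum]
        exact Fintype.sum_equiv (Equiv.mulLeft φ₀) _ _ fun φ => rfl
      have h3 : (((φ₀ (QuotientGroup.mk' H d) : ℂˣ) : ℂ) - 1) * ∑ φ : (D ⧸ H) →* ℂˣ, ((φ (QuotientGroup.mk' H d) : ℂˣ) : ℂ) = 0 := by
        rw [sub_mul, h2, one_mul, sub_self]
      refine (mul_eq_zero.1 h3).resolve_left fun h => hφ₀ ?_
      ext
      rw [Units.val_one]
      exact sub_eq_zero.1 h

end Pool.Agent.RF
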