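import Pool.Agent.helper60.RF.SpecB

/-!
# Row rf:OCP (MP_16912e_nt, project RF): a prime of `ℤ[φ]` dividing `n` above a prime number which does not divide `n`
-/

set_option autoImplicit false

namespace Pool.Agent.RF

open NumberField

theorem OCP_one (P : Ideal OO) (hP : P.IsPrime) : (1 : OO) ∉ P := fun h =>
  hP.ne_top ((Ideal.eq_top_iff_one P).2 h)

theorem OCP_int (l : ℕ) (P : Ideal OO) (hl : l.Prime) (hP : P.IsPrime) (hlP : (l : OO) ∈ P) (c : ℤ)
    (hc : (c : OO) ∈ P) : (l : ℤ) ∣ c := by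
  by_contra hnd
  obtain ⟨u, v, huv⟩ := (Nat.prime_iff_prime_int.1 hl).coprime_iff_not_dvd.2 hnd
  apply OCP_one P hP
  have h1 : (1 : OO) = (u : OO) * (l : OO) + (v : OO) * (c : OO) := by
    have h2 : ((u * (l : ℤ) + v * c : ℤ) : OO) = ((1 : ℤ) : OO) := by rw [huv]
    push_cast at h2
    exact h2.symm
  rw [h1]
  exact P.add_mem (P.mul_mem_left _ hlP) (P.mul_mem_left _ hc)

theorem OCP_cop (P : Ideal OO) (hP : P.IsPrime) {a b : OO} (h : IsCoprime a b) (hb : b ∈ P) : a ∉ P := by
  intro ha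
  obtain ⟨u, v, huv⟩ := h
  apply OCP_one P hP
  rw [← huv]
  exact P.add_mem (P.mul_mem_left _ ha) (P.mul_mem_left _ hb)

theorem OCP_star {a b : OO} (h : IsCoprime a b) : IsCoprime (star a) (star b) := h.map (starRingEnd OO)

theorem OCP_r5 : r5 * r5 = (5 : OO) := by
  ext <;> rfl

theorem OCP_ph : ph * (ph - 1) = (1 : OO) := by
  ext <;> rfl

theorem OCP_sub (n : OO) : n - star n = (n.im : OO) * r5 := by
  ext <;> simp [r5] <;> ring

theorem OCP_re (n : OO) : ((n.re : ℤ) : OO) = n - (n.im : OO) * ph := by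
  ext <;> simp [ph]

theorem OCP_A (h1 : TRA_stmt) (p : Pt) (hp : IsPt p) (l : ℕ) (P : Ideal OO) (hl : l.Prime) (hP : P.IsPrime)
    (hlP : (l : OO) ∈ P) (hln : ¬ (l : OO) ∣ p.n) (hn : p.n ∈ P) :
    star p.n ∉ P ∧ 2 * p.X ∉ P ∧ 2 * star p.X ∉ P ∧ (p.D : OO) ∉ P := by
  obtain ⟨t1, t2, -⟩ := h1 p hp
  have h5 : (5 : OO) ∉ P := by
    intro h
    obtain ⟨a, ha⟩ := hp.n1
    apply OCP_one P hP
    have e1 : (1 : OO) = p.n - 5 * (5 * a) := by
      have e2 : p.n = 1 + 25 * a := by rw [← ha]; ring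
      rw [e2]
      ring
    rw [e1]
    exact P.sub_mem hn (P.mul_mem_right _ h)
  have hn' : star p.n ∉ P := by
    intro h
    have hd : (p.n.im : OO) * r5 ∈ P := by
      rw [← OCP_sub]
      exact P.sub_mem hn h
    rcases hP.mem_or_mem hd with hb | hr
    · have hre : ((p.n.re : ℤ) : OO) ∈ P := by
        rw [OCP_re]
        exact P.sub_mem hn (P.mul_mem_right _ hb)
      obtain ⟨c, hc⟩ := OCP_int l P hl hP hlP _ hb
      obtain ⟨d, hd⟩ := OCP_int l P hl hP hlP _ hre
      refine hln ⟨⟨d, c⟩, ?_⟩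
      ext
      · simp [hd]
      · simp [hc]
    · apply h5
      rw [← OCP_r5]
      exact P.mul_mem_right _ hr
  have hphu : ∀ z : OO, ph * z ∈ P → z ∈ P := by
    intro z hz
    have e1 : z = (ph - 1) * (ph * z) := by
      have e2 : (ph - 1) * (ph * z) = (ph * (ph - 1)) * z := by ring
      rw [e2, OCP_ph, one_mul]
    rw [e1]
    exact P.mul_mem_left _ hz
  have hk : p.k ∉ P := OCP_cop P hP hp.kn hn
  have hK : (25 * p.k : OO) ∉ P := by
    intro h
    rcases hP.mem_or_mem h with h | h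
    · have e1 : (25 : OO) = 5 * 5 := by norm_num
      rw [e1] at h
      rcases hP.mem_or_mem h with h | h <;> exact h5 h
    · exact hk h
  have h2 : (2 : OO) ∉ P := OCP_cop P hP hp.n2 hn
  have key : star p.M ∉ P := by
    intro h
    have e1 : ph * (star p.n * (25 * p.k) ^ 2) ∈ P := by
      have e2 : ph * (star p.n * (25 * p.k) ^ 2) = -(p.M * star p.M) - star (ph * star p.n * (25 * p.k) ^ 2) := by
        rw [t2]
        ring
      rw [e2]
      refine P.sub_mem (P.neg_mem (P.mul_mem_left _ h)) ?_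
      rw [star_mul', star_mul', star_star]
      exact P.mul_mem_right _ (P.mul_mem_left _ hn)
    rcases hP.mem_or_mem (hphu _ e1) with h3 | h3
    · exact hn' h3
    · exact hK (hP.mem_of_pow_mem 2 h3)
  have hX : 2 * p.X ∉ P := by
    intro h
    have e1 : ph * (star p.n * star p.M) ∈ P := by
      have e2 : ph * (star p.n * star p.M) = -(2 * p.X * star (25 * p.k)) - p.n * p.M := by
        rw [← t1]
        ring
      rw [e2]
      exact P.sub_mem (P.neg_mem (P.mul_mem_right _ h)) (P.mul_mem_right _ hn)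
    rcases hP.mem_or_mem (hphu _ e1) with h3 | h3
    · exact hn' h3
    · exact key h3
  have hX' : 2 * star p.X ∉ P := by
    intro h
    have t3 := congrArg star t1
    rw [star_add, star_mul', star_mul', star_mul', star_neg, star_mul', star_star, star_star, star_star, star_mul',
      star_ofNat] at t3
    have e1 : star p.n * star p.M ∈ P := by
      have e2 : star p.n * star p.M = -(2 * star p.X * (25 * p.k)) - star ph * p.n * p.M := by
        rw [← t3]
        ring
      rw [e2]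
      exact P.sub_mem (P.neg_mem (P.mul_mem_right _ h)) (P.mul_mem_right _ (P.mul_mem_left _ hn))
    rcases hP.mem_or_mem e1 with h3 | h3
    · exact hn' h3
    · exact key h3
  refine ⟨hn', hX, hX', fun h => hX ?_⟩
  have e1 : p.X ^ 2 ∈ P := by
    have e2 : p.X ^ 2 = p.n ^ 2 * star p.n - w2 * (p.D : OO) * (25 * p.k) ^ 2 := by
      rw [← hp.e1]
      ring
    rw [e2]
    refine P.sub_mem (P.mul_mem_right _ (P.pow_mem_of_mem hn 2 (by norm_num))) (P.mul_mem_right _ (P.mul_mem_left _ h))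
  exact P.mul_mem_left _ (hP.mem_of_pow_mem 2 e1)

theorem OCP (h1 : TRA_stmt) : OCP_stmt := by
  intro p hp l P hl hP hlP hln hor
  rcases hor with hn | hn
  · obtain ⟨a1, a2, a3, a4⟩ := OCP_A h1 p hp l P hl hP hlP hln hn
    exact ⟨fun h => a1 h.2, a2, a3, a4⟩
  · have hmem : ∀ x : OO, x ∈ P.comap (starRingEnd OO) ↔ star x ∈ P := fun x => Iff.rfl
    have hP' : (P.comap (starRingEnd OO)).IsPrime := Ideal.comap_isPrime _ _
    have hl' : (l : OO) ∈ P.comap (starRingEnd OO) := by
      rw [hmem, star_natCast]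
      exact hlP
    obtain ⟨a1, a2, a3, a4⟩ := OCP_A h1 p hp l _ hl hP' hl' hln ((hmem _).2 hn)
    rw [hmem, star_star] at a1
    rw [hmem, star_mul', star_ofNat] at a2
    rw [hmem, star_mul', star_ofNat, star_star] at a3
    rw [hmem, star_intCast] at a4
    exact ⟨fun h => a1 h.1, a3, a2, a4⟩

end Pool.Agent.RF
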